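import Mathlib
import Pool.Agent.MP_7bf93d_lc.Main

open Cardinal

universe u

namespace Pool.Agent.Results.MP_7bf93d_lc.HCArrow

/-- A graph on `X` is highly connected if it stays connected after the removal of any set of
fewer than `#X` vertices. -/
def HighlyConnected {X : Type u} (G : SimpleGraph X) : Prop :=
  ∀ Y : Set X, #Y < #X → (G.induce Yᶜ).Connected

/-- The partition relation `kap →hc (lam)^2_th`: every colouring of the unordered pairs of
ordinals below `kap` with `th` colours has a colour `i` and a set `A` of size `lam` such that the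
graph of the pairs from `A` of colour `i` is highly connected. -/
def ArrowHC (kap lam th : Cardinal.{u}) : Prop :=
  ∀ c : Sym2 kap.ord.ToType → th.ord.ToType, ∃ (i : th.ord.ToType) (A : Set kap.ord.ToType),
    #A = lam ∧ HighlyConnected ((SimpleGraph.fromEdgeSet {e | c e = i}).induce A)

open Pool.Agent.MP_7bf93d_lc in
theorem result (lam th : Cardinal.{u}) (hlam : ℵ₀ ≤ lam) (hth : th < lam.ord.cof) :
    ArrowHC (Order.succ lam) lam th := by
  intro c
  obtain ⟨n, A, hA, hHC⟩ := main (V := (Order.succ lam).ord.ToType) (C := th.ord.ToType) hlam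
    (by simpa using hth) (by simp) (fun v => Order.lt_succ_iff.1 (mk_Iio_ord_lt v))
    (fun x d => c s(x, d)) (fun n => SimpleGraph.fromEdgeSet {e | c e = n})
    (fun x d h => by simp [SimpleGraph.fromEdgeSet_adj, h.ne])
  refine ⟨n, A, hA, fun Y hY => ?_⟩
  have hY' : #(Subtype.val '' Y : Set (Order.succ lam).ord.ToType) < lam :=
    (mk_image_le.trans_lt hY).trans_eq hA
  have hne : (Yᶜ : Set A).Nonempty := by
    by_contra hcon
    rw [Set.not_nonempty_iff_eq_empty, Set.compl_empty_iff] at hcon
    rw [hcon, mk_univ] at hY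
    exact lt_irrefl _ hY
  refine connected_induce hne fun x hx y hy => ?_
  have hmem : ∀ v : A, v ∈ Yᶜ → v.1 ∈ A \ (Subtype.val '' Y) := by
    rintro v hv
    refine ⟨v.2, ?_⟩
    rintro ⟨w, hw, hwv⟩
    exact hv (Subtype.ext hwv ▸ hw)
  have key : ∀ a b : (Order.succ lam).ord.ToType,
      Conn (SimpleGraph.fromEdgeSet {e | c e = n}) (A \ (Subtype.val '' Y)) a b →
      ∀ (ha : a ∈ A) (hb : b ∈ A),
        Conn ((SimpleGraph.fromEdgeSet {e | c e = n}).induce A) Yᶜ ⟨a, ha⟩ ⟨b, hb⟩ := by
    intro a b h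
    unfold Conn at h
    induction h with
    | refl => intro ha hb; exact Relation.ReflTransGen.refl
    | @tail p q _ hpq ih =>
      intro ha hb
      refine (ih ha hpq.1.1).trans (Conn.single ?_ ?_ hpq.2.2)
      · exact fun h => hpq.1.2 ⟨_, h, rfl⟩
      · exact fun h => hpq.2.1.2 ⟨_, h, rfl⟩
  exact key x.1 y.1 (hHC _ hY' _ (hmem x hx) _ (hmem y hy)) x.2 y.2

end Pool.Agent.Results.MP_7bf93d_lc.HCArrow
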