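import Mathlib
import Pool.Agent.MP_7bf93d_lc.StatC

/-!
Stationary monochromatic sets of connectivity `lam` in colourings of the pairs of `lam⁺`, and the
highly connected partition relation from `aleph 2` to `aleph 1` with countably many colours.
-/

open Cardinal

universe u

namespace Pool.Agent.Results.MP_7bf93d_lc.StationaryConnected

/-- A graph is `mu`-connected if it stays connected after the removal of any set of fewer than
`mu` vertices. -/
def ConnectedAfter {X : Type u} (mu : Cardinal.{u}) (G : SimpleGraph X) : Prop :=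
  ∀ Y : Set X, #Y < mu → (G.induce Yᶜ).Connected

open Pool.Agent.MP_7bf93d_lc Pool.Agent.MP_7bf93d_lc.Stat in
theorem result (lam th : Cardinal.{u}) (hlam : ℵ₀ ≤ lam) (hth : th < lam.ord.cof)
    (S : Set (Order.succ lam).ord.ToType) (hS : IsStationary S)
    (hcof : ∀ d ∈ S, th < Order.cof (Set.Iio d))
    (c : Sym2 (Order.succ lam).ord.ToType → th.ord.ToType) :
    ∃ (i : th.ord.ToType) (B : Set (Order.succ lam).ord.ToType), B ⊆ S ∧ IsStationary B ∧
      ConnectedAfter lam ((SimpleGraph.fromEdgeSet {e | c e = i}).induce B) := by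
  have hV : lam < #(Order.succ lam).ord.ToType := by simp
  have hVi : ∀ v : (Order.succ lam).ord.ToType, #(Set.Iio v) ≤ lam :=
    fun v => Order.lt_succ_iff.1 (mk_Iio_ord_lt v)
  obtain ⟨n, B, hBS, hB, hHC⟩ := main_stat (V := (Order.succ lam).ord.ToType)
    (C := th.ord.ToType) hlam (by simpa using hth) hV hVi hS (by simpa using hcof)
    (fun x d => c s(x, d)) (fun n => SimpleGraph.fromEdgeSet {e | c e = n})
    (fun x d h => by simp [SimpleGraph.fromEdgeSet_adj, h.ne])
  exact ⟨n, B, hBS, hB, connected_of_HC
    (not_le.1 fun h => (large_stat hlam hV hVi).small h hB).le hHC⟩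

/-- A graph on `X` is highly connected if it stays connected after the removal of any set of
fewer than `#X` vertices. -/
def HighlyConnected {X : Type u} (G : SimpleGraph X) : Prop :=
  ∀ Y : Set X, #Y < #X → (G.induce Yᶜ).Connected

/-- The partition relation `kap →hc (lam)^2_th`: every colouring of the unordered pairs of
ordinals below `kap` with `th` colours has a colour `i` and a set `A` of size `lam` such that the
graph of the pairs from `A` of colour `i` is highly connected. -/
def ArrowHC (kap lam th : Cardinal.{u}) : Prop :=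
  ∀ c : Sym2 kap.ord.ToType → th.ord.ToType, ∃ (i : th.ord.ToType) (A : Set kap.ord.ToType),
    #A = lam ∧ HighlyConnected ((SimpleGraph.fromEdgeSet {e | c e = i}).induce A)

open Pool.Agent.MP_7bf93d_lc Pool.Agent.MP_7bf93d_lc.Stat in
/-- Take for `S` the points of cofinality above `th` and close a subset of `B` of size `lam`
under disjoint paths. -/
theorem arrow (lam th : Cardinal.{u}) (hlam : ℵ₀ ≤ lam) (hth : th < lam.ord.cof) :
    ArrowHC (Order.succ lam) lam th := by
  intro c
  have hV : lam < #(Order.succ lam).ord.ToType := by simp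
  have hVi : ∀ v : (Order.succ lam).ord.ToType, #(Set.Iio v) ≤ lam :=
    fun v => Order.lt_succ_iff.1 (mk_Iio_ord_lt v)
  obtain ⟨i, B, -, hB, hc⟩ := result lam th hlam hth _ (stat_cof hlam hth hV hVi)
    (fun _ h => h) c
  obtain ⟨A, hA, hHC⟩ := exists_HC_subset hlam
    (not_le.1 fun h => (large_stat hlam hV hVi).small h hB).le (HC_of_connected hc)
  exact ⟨i, A, hA, fun Y hY => connected_of_HC hA.ge hHC Y (hY.trans_eq hA)⟩

/-- The negated form of Q1. -/
theorem q1 : ArrowHC (ℵ_ 2 : Cardinal.{u}) (ℵ_ 1) ℵ₀ := by
  have h := arrow (ℵ_ 1 : Cardinal.{u}) ℵ₀ (aleph0_le_aleph 1)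
    (by rw [isRegular_aleph_one.cof_ord]; exact aleph0_lt_aleph_one)
  rwa [succ_aleph, one_add_one_eq_two] at h

end Pool.Agent.Results.MP_7bf93d_lc.StationaryConnected
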